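import Pool.Agent.LAT.StmtsC

/-!
# Squad LAT, part 2, row EVW: chains below `M`
-/

set_option autoImplicit false

namespace Pool.Agent.LAT.H29

open Matrix

theorem evw (hPhs : PhsStmt) (hPhf : PhfStmt) (hPar : ParStmt) : EvwStmt := by
  classical
  intro m D M hM
  have hsub := (hPhs m D).2.2.2
  have hW : (WS D M).Finite := by
    refine Set.Finite.subset (hPhf m M D) ?_
    rintro N ⟨h1, h2⟩
    exact ⟨h1.le, (hM.trans h2.le)⟩
  -- the reversal
  let f : List (Submodule ℤ (Fin m → ℤ)) → List (Submodule ℤ (Fin m → ℤ))ᵒᵈ :=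
    fun l => (l.map OrderDual.toDual).reverse
  have hf : Function.Injective f := by
    intro a b h
    have h1 := List.reverse_injective h
    exact List.map_injective_iff.2 OrderDual.toDual.injective h1
  let P : Set (Submodule ℤ (Fin m → ℤ))ᵒᵈ := {x | OrderDual.ofDual x ∈ WS D M}
  have hfm : ∀ l, l ∈ chns (WS D M) ↔ ((∀ x ∈ f l, x ∈ P) ∧ (f l).Pairwise (· < ·)) := by
    intro l
    refine and_congr ?_ ?_
    · constructor
      · intro h x hx
        rw [List.mem_reverse, List.mem_map] at hx
        obtain ⟨a, ha, rfl⟩ := hx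
        exact h a ha
      · intro h x hx
        have := h (OrderDual.toDual x) (by
          rw [List.mem_reverse, List.mem_map]
          exact ⟨x, hx, rfl⟩)
        exact this
    · rw [List.pairwise_reverse, List.pairwise_map]
      exact Iff.rfl
  have hsurj : ∀ l' : List (Submodule ℤ (Fin m → ℤ))ᵒᵈ, ∃ l, f l = l' := by
    intro l'
    refine ⟨(l'.map OrderDual.ofDual).reverse, ?_⟩
    simp only [f, List.map_reverse, List.map_map, List.reverse_reverse]
    have : (OrderDual.toDual ∘ OrderDual.ofDual :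
      (Submodule ℤ (Fin m → ℤ))ᵒᵈ → (Submodule ℤ (Fin m → ℤ))ᵒᵈ) = id := by
      funext x
      rfl
    rw [this, List.map_id]
  have hfin0 : (chns (WS D M)).Finite := by
    have hb : ∀ l ∈ chns (WS D M), l.length ≤ hW.toFinset.card := by
      intro l hl
      have hnd : l.Nodup := hl.2.imp fun h => h.ne
      rw [← List.toFinset_card_of_nodup hnd]
      refine Finset.card_le_card fun x hx => ?_
      rw [List.mem_toFinset] at hx
      rw [Set.Finite.mem_toFinset]
      exact hl.1 x hx
    have : Finite (WS D M) := hW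
    have h3 := List.finite_length_le (WS D M) hW.toFinset.card
    refine (h3.image (fun l => l.map Subtype.val)).subset ?_
    intro l hl
    exact ⟨l.attach.map (fun u => ⟨u.1, hl.1 _ u.2⟩), by simpa using hb l hl, by simp⟩
  refine ⟨hfin0, ?_⟩
  rcases Set.eq_empty_or_nonempty (WS D M) with he | hne
  · exact Or.inl he
  refine Or.inr ?_
  obtain ⟨T, hT, hmax⟩ := Set.exists_max_image (WS D M) (ph D) hW hne
  have hjoin : ∀ N ∈ WS D M, N ⊓ T ∈ WS D M := by
    intro N hN
    have hTp : 0 < ph D T := lt_of_lt_of_le one_pos (hM.trans hT.2.le)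
    have hJ : ph D (N ⊔ T) ≤ ph D T := by
      have hle : N ⊔ T ≤ M := sup_le hN.1.le hT.1.le
      rcases eq_or_lt_of_le hle with h | h
      · rw [h]
        exact hT.2.le
      · rcases le_or_gt (ph D (N ⊔ T)) (ph D M) with h2 | h2
        · exact h2.trans hT.2.le
        · exact hmax _ ⟨h, h2⟩
    have h1 := hsub N T
    have h2 : ph D (N ⊓ T) * ph D (N ⊔ T) ≤ ph D (N ⊓ T) * ph D T :=
      mul_le_mul_of_nonneg_left hJ ((hPhs m D).2.1 _)
    have h3 : ph D N ≤ ph D (N ⊓ T) := le_of_mul_le_mul_right (h1.trans h2) hTp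
    exact ⟨lt_of_le_of_lt inf_le_left hN.1, lt_of_lt_of_le hN.2 h3⟩
  have hPfin : P.Finite := by
    have : P = OrderDual.toDual '' (WS D M) := by
      ext x
      constructor
      · intro hx
        exact ⟨OrderDual.ofDual x, hx, rfl⟩
      · rintro ⟨y, hy, rfl⟩
        exact hy
    rw [this]
    exact hW.image _
  have hodd := (hPar (Submodule ℤ (Fin m → ℤ))ᵒᵈ P hPfin (OrderDual.toDual T) hT
    (fun x hx => hjoin (OrderDual.ofDual x) hx)).2
  have himg : f '' {l | l ∈ chns (WS D M) ∧ l ≠ []} =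
      {l : List (Submodule ℤ (Fin m → ℤ))ᵒᵈ | l ≠ [] ∧ (∀ x ∈ l, x ∈ P) ∧
        l.Pairwise (· < ·)} := by
    ext l'
    constructor
    · rintro ⟨l, ⟨h1, h2⟩, rfl⟩
      refine ⟨?_, (hfm l).1 h1⟩
      intro h
      apply h2
      have : f l = f [] := h
      exact hf this
    · rintro ⟨h1, h2⟩
      obtain ⟨l, rfl⟩ := hsurj l'
      refine ⟨l, ⟨(hfm l).2 h2, ?_⟩, rfl⟩
      rintro rfl
      exact h1 rfl
  rw [← himg, Set.ncard_image_of_injective _ hf] at hodd
  have hins : chns (WS D M) = insert [] {l | l ∈ chns (WS D M) ∧ l ≠ []} := by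
    ext l
    constructor
    · intro h
      by_cases h0 : l = []
      · exact Or.inl h0
      · exact Or.inr ⟨h, h0⟩
    · rintro (h | h)
      · rw [h]
        refine ⟨?_, List.Pairwise.nil⟩
        intro x hx
        exact absurd hx (List.not_mem_nil)
      · exact h.1
  rw [hins, Set.ncard_insert_of_notMem (fun h => h.2 rfl)
    (hfin0.subset fun l hl => hl.1)]
  exact hodd.add_one

end Pool.Agent.LAT.H29
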