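import Pool.Agent.LAT.StmtsC

/-!
# Squad LAT, part 2, row TLN: a tail gives a close vector
-/

set_option autoImplicit false

namespace Pool.Agent.LAT.H29

open Matrix

theorem tln (hDsr : DsrStmt) (hCov : CovStmt) (hGgp : GgpStmt) : TlnStmt := by
  classical
  intro n m d A v B hB hOpt u z y hT
  obtain ⟨p, hp, horth, heq⟩ := (hDsr m B (v - u) hB).2.2 y hT.sol
  -- the determinant is positive
  have hdet : (1 : ℤ) ≤ (GG B).det := by
    have h := hGgp m B hB m le_rfl
    have e : LB (GG B) m = GG B := by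
      ext i j
      simp [LB]
    rwa [e] at h
  have hdetR : (1 : ℝ) ≤ ((GG B).det : ℝ) := by exact_mod_cast hdet
  have hdetp : (0 : ℝ) < ((GG B).det : ℝ) := by linarith
  -- the distance to the span
  have hdist : sq (rv (v - u) - p) ≤ (d : ℝ) := by
    have h1 : ((y ⬝ᵥ (B *ᵥ (v - u)) + (GG B).det * ((v - u) ⬝ᵥ (v - u)) : ℤ) : ℝ) ≤
        (((d : ℤ) * (GG B).det : ℤ) : ℝ) := by exact_mod_cast hT.dist
    rw [heq, Int.cast_mul, Int.cast_natCast, mul_comm (d : ℝ)] at h1
    exact le_of_mul_le_mul_left h1 hdetp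
  -- the covering radius
  obtain ⟨u', hu', hcov⟩ := hCov m (4 * d) (rows B) hOpt.down p hp
  have hr : rk (rows B) ≤ n := by
    have h1 : rk (rows B) ≤ rk (rows A) := Submodule.finrank_mono hOpt.le
    have h2 : rk (rows A) ≤ n := by
      have := finrank_range_le_card (R := ℤ) (fun i => A i)
      rw [Fintype.card_fin] at this
      exact this
    exact h1.trans h2
  have hu'R : rv u' ∈ RS (rows B) := Submodule.subset_span ⟨u', hu', rfl⟩
  have hortho : (rv (v - u) - p) ⬝ᵥ (p - rv u') = 0 := horth _ (Submodule.sub_mem _ hp hu'R)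
  have hsum : sq (rv (v - (u + u'))) = sq (rv (v - u) - p) + sq (p - rv u') := by
    have e : rv (v - (u + u')) = (rv (v - u) - p) + (p - rv u') := by
      funext j
      simp only [rv, Pi.add_apply, Pi.sub_apply, Int.cast_sub, Int.cast_add]
      ring
    rw [e]
    unfold sq
    rw [add_dotProduct, dotProduct_add, dotProduct_add, hortho,
      dotProduct_comm (p - rv u') (rv (v - u) - p), hortho]
    ring
  -- the coefficients
  obtain ⟨z', hz'⟩ : ∃ z' : Fin n → ℤ, z' ᵥ* A = u' := by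
    have h := hOpt.le hu'
    rw [rows, Submodule.mem_span_range_iff_exists_fun] at h
    obtain ⟨c, hc⟩ := h
    refine ⟨c, ?_⟩
    rw [← hc, Matrix.vecMul_eq_sum]
  refine ⟨z + z', ?_⟩
  have hc : (z + z') ᵥ* A = u + u' := by
    rw [Matrix.add_vecMul, hT.mem, hz']
  rw [hc]
  have hfin : (((v - (u + u')) ⬝ᵥ (v - (u + u')) : ℤ) : ℝ) ≤
      ((((1 + n * (n + 1) / 2 : ℕ) : ℤ) * d : ℤ) : ℝ) := by
    have e : (((v - (u + u')) ⬝ᵥ (v - (u + u')) : ℤ) : ℝ) = sq (rv (v - (u + u'))) := by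
      simp only [sq, rv, dotProduct]
      push_cast
      rfl
    rw [e, hsum]
    have h2 : ((n * (n + 1) / 2 : ℕ) : ℝ) = (n : ℝ) * (n + 1) / 2 := by
      rw [Nat.cast_div (Nat.even_mul_succ_self n).two_dvd (by norm_num)]
      push_cast
      ring
    rw [Int.cast_mul, Int.cast_natCast, Int.cast_natCast, Nat.cast_add, h2, Nat.cast_one]
    have hrR : (rk (rows B) : ℝ) ≤ n := by exact_mod_cast hr
    have hd0 : (0 : ℝ) ≤ d := Nat.cast_nonneg d
    have h3 : (rk (rows B) : ℝ) * (rk (rows B) + 1) ≤ n * (n + 1) := by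
      have h0 : (0 : ℝ) ≤ (rk (rows B) : ℝ) := Nat.cast_nonneg _
      nlinarith
    have h4 : sq (p - rv u') ≤ (n : ℝ) * (n + 1) / 2 * d := by
      refine hcov.trans ?_
      push_cast
      nlinarith [mul_le_mul_of_nonneg_right h3 hd0]
    linarith
  exact_mod_cast hfin

end Pool.Agent.LAT.H29
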